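import Pool.Agent.R592.Gro
import Pool.Agent.Results.MP_898cae_lc.PropTEqContinuum

/-!
# The Grothendieck number is at most `prop_(T)`

`prop_(T)` is the least cardinality of a maximal subalgebra of `Bor(2^ℕ)` with property (T) and
`gr` is the least cardinality of an infinite Boolean algebra with the Grothendieck property. By
the starting result `MP_898cae_lc.PropTEqContinuum` every maximal subalgebra with property (T) has
cardinality `𝔠`. On the other hand the algebra of all subsets of `ℕ`, which has cardinality `𝔠`,
has the Grothendieck property by a theorem of Grothendieck (proved in `Pool.Agent.R592.Gro`). So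
`gr ≤ 𝔠 = prop_(T)` in ZFC.
-/

set_option autoImplicit false

open Cardinal Pool.Agent.R592.Gro
open Pool.Agent.Results.MP_898cae_lc.PropTEqContinuum (propT)

namespace Pool.Agent.Results.MP_3e50fa_lc.GrLePropT

/-- The least cardinality of an infinite Boolean algebra with the Grothendieck property. -/
noncomputable def gr : Cardinal.{0} :=
  sInf {c | ∃ (A : Type) (_ : BooleanAlgebra A), Infinite A ∧ GrothendieckProperty A ∧ #A = c}

/-- There is an infinite Boolean algebra with the Grothendieck property of cardinality `gr`, and
`gr` is at most `prop_(T)`. -/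
theorem result :
    (∃ (A : Type) (_ : BooleanAlgebra A), Infinite A ∧ GrothendieckProperty A ∧ #A = gr) ∧
    gr ≤ propT := by
  have h : (#(Set ℕ)) ∈ {c | ∃ (A : Type) (_ : BooleanAlgebra A), Infinite A ∧
      GrothendieckProperty A ∧ #A = c} :=
    ⟨Set ℕ, inferInstance, inferInstance, grothendieck_nat, rfl⟩
  refine ⟨csInf_mem ⟨_, h⟩, ?_⟩
  rw [Pool.Agent.Results.MP_898cae_lc.PropTEqContinuum.result.1]
  refine (csInf_le' h).trans_eq ?_
  simp

end Pool.Agent.Results.MP_3e50fa_lc.GrLePropT
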